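import Mathlib

/-!
# Trivial recolouring implies dismantlability for binary matroids

Binary simple matroids (loops allowed) are sets of vectors of `ι → ZMod 2`, `ι` finite: the
columns of a matrix over `Z_2` with pairwise distinct columns.
-/

namespace Pool.Agent.Results.MP_ea4033_co.TrivialDismantles

open Set

/-- The vectors (columns) over `Z_2` with rows indexed by `ι`. -/
abbrev Vec (ι : Type) : Type := ι → ZMod 2

/-- Circuits of the binary matroid with set of columns `T`: minimal nonempty sets of columns with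
sum zero. -/
def IsCircuit {ι : Type} {T : Set (Vec ι)} (Z : Finset T) : Prop :=
  Z.Nonempty ∧ ∑ e ∈ Z, (e : Vec ι) = 0 ∧
    ∀ Z' : Finset T, Z' ⊆ Z → Z'.Nonempty → ∑ e ∈ Z', (e : Vec ι) = 0 → Z' = Z

/-- Homomorphisms of binary matroids. -/
def IsHom {ι κ : Type} {T : Set (Vec ι)} {S : Set (Vec κ)} (τ : T → S) : Prop :=
  ∀ Z : Finset T, IsCircuit Z → ∑ e ∈ Z, (τ e : Vec κ) = 0

/-- The set of columns on which a linear functional (a combination of rows) equals `1`. -/
def coset {ι : Type} (T : Set (Vec ι)) (φ : Vec ι →ₗ[ZMod 2] ZMod 2) : Set T :=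
  {e | φ (e : Vec ι) = 1}

/-- Cocircuits of the binary matroid with set of columns `T`: the minimal nonempty supports of
combinations of the rows. -/
def IsCocircuit {ι : Type} {T : Set (Vec ι)} (C : Set T) : Prop :=
  (∃ φ, C = coset T φ) ∧ C.Nonempty ∧
    ∀ φ, (coset T φ).Nonempty → coset T φ ⊆ C → coset T φ = C

/-- The adjacency of the colouring graph. -/
def ColAdj {ι κ : Type} {T : Set (Vec ι)} {S : Set (Vec κ)} (τ τ' : T → S) : Prop :=
  τ ≠ τ' ∧ ∃ (C : Set T) (c : Vec κ), IsCocircuit C ∧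
    ∀ e, (e ∈ C → (τ' e : Vec κ) = τ e + c) ∧ (e ∉ C → τ' e = τ e)

theorem vec_add_self {κ : Type} (c : Vec κ) : c + c = 0 := by
  funext i; exact CharTwo.add_self_eq_zero _

/-- The colouring graph `Col(M, N)`. -/
def Col {ι κ : Type} (T : Set (Vec ι)) (S : Set (Vec κ)) :
    SimpleGraph {τ : T → S // IsHom τ} where
  Adj τ τ' := ColAdj τ.1 τ'.1
  symm := ⟨by
    rintro τ τ' ⟨hne, C, c, hC, h⟩
    refine ⟨hne.symm, C, c, hC, fun e => ⟨fun he => ?_, fun he => ((h e).2 he).symm⟩⟩
    rw [(h e).1 he, add_assoc, vec_add_self, add_zero]⟩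
  loopless := ⟨fun τ h => h.1 rfl⟩

/-- `Recol(N)` is trivial: all colouring graphs `Col(M, N)` are connected (any two homomorphisms
are joined by a path). -/
def RecolTrivial {κ : Type} (S : Set (Vec κ)) : Prop :=
  ∀ (ι : Type) [Finite ι] (T : Set (Vec ι)), (Col T S).Preconnected

/-- `r` is a dismantling retraction of `N`. -/
def IsDismantlingRetraction {κ : Type} {S : Set (Vec κ)} (r : S → S) : Prop :=
  IsHom r ∧ (∀ x, r (r x) = r x) ∧ ColAdj (fun x : S => x) r

/-- One dismantling step: `S'` is the image of a dismantling retraction of `S`. -/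
def Step {κ : Type} (S S' : Set (Vec κ)) : Prop :=
  ∃ r : S → S, IsDismantlingRetraction r ∧ S' = range (fun x => (r x : Vec κ))

/-- `N` dismantles to the loop or to the edge: a sequence of dismantling steps leads to a matroid
with exactly one element (a zero column or a nonzero column). -/
def DismantlesToLoopOrEdge {κ : Type} (S : Set (Vec κ)) : Prop :=
  ∃ S' : Set (Vec κ), Relation.ReflTransGen Step S S' ∧ (S' = {0} ∨ ∃ v, v ≠ 0 ∧ S' = {v})

theorem z2 (a : ZMod 2) : a = 0 ∨ a = 1 := by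
  revert a; decide

/-- A map of the form `x ↦ x + φ(x) c` preserving `S`, with `φ(c) = 1` and `φ` supported on a
cocircuit, gives a dismantling step. -/
theorem retraction_of {κ : Type} {S : Set (Vec κ)} {φ : Vec κ →ₗ[ZMod 2] ZMod 2} {c : Vec κ}
    (hC : IsCocircuit (coset S φ)) (hS : ∀ x ∈ S, x + φ x • c ∈ S) (hc : φ c = 1) :
    ∃ r : S → S, IsDismantlingRetraction r := by
  refine ⟨fun x => ⟨x + φ x • c, hS x x.2⟩, ?_, ?_, ?_, ?_⟩
  · intro Z hZ
    show ∑ e ∈ Z, ((e : Vec κ) + φ e • c) = 0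
    rw [Finset.sum_add_distrib, ← Finset.sum_smul, ← map_sum, hZ.2.1]
    simp
  · intro x
    apply Subtype.ext
    show ((x : Vec κ) + φ x • c) + φ ((x : Vec κ) + φ x • c) • c = (x : Vec κ) + φ x • c
    rw [map_add, map_smul, hc, smul_eq_mul, mul_one, CharTwo.add_self_eq_zero, zero_smul, add_zero]
  · intro h
    obtain ⟨x, hx⟩ := hC.2.1
    have h1 := congrFun h x
    have h2 : (x : Vec κ) = x + φ x • c := congrArg Subtype.val h1
    have hx' : φ x = 1 := hx
    rw [hx', one_smul] at h2
    have h3 : c = 0 := by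
      have := left_eq_add.1 h2
      exact this
    rw [h3, map_zero] at hc
    exact absurd hc (by decide)
  · refine ⟨coset S φ, c, hC, fun e => ⟨fun he => ?_, fun he => ?_⟩⟩
    · have he' : φ e = 1 := he
      show (e : Vec κ) + φ e • c = e + c
      rw [he', one_smul]
    · apply Subtype.ext
      show (e : Vec κ) + φ e • c = e
      have he' : φ e = 0 := by
        rcases z2 (φ e) with h | h
        · exact h
        · exact absurd h he
      rw [he', zero_smul, add_zero]

/-- The form of a map adjacent to a given one. -/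
theorem adj_form {ι κ : Type} {T : Set (Vec ι)} {S : Set (Vec κ)} {τ τ' : T → S}
    (h : ColAdj τ τ') : ∃ (φ : Vec ι →ₗ[ZMod 2] ZMod 2) (c : Vec κ), c ≠ 0 ∧
      IsCocircuit (coset T φ) ∧ ∀ e : T, (τ' e : Vec κ) = τ e + φ e • c := by
  obtain ⟨hne, C, c, hC, h⟩ := h
  obtain ⟨φ, rfl⟩ := hC.1
  have hform : ∀ e : T, (τ' e : Vec κ) = τ e + φ e • c := by
    intro e
    rcases z2 (φ e) with h0 | h0
    · rw [h0, zero_smul, add_zero, (h e).2 (by
        intro he
        have he' : φ e = 1 := he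
        rw [h0] at he'; exact absurd he' (by decide))]
    · rw [h0, one_smul]; exact (h e).1 h0
  refine ⟨φ, c, ?_, hC, hform⟩
  rintro rfl
  apply hne
  funext e
  apply Subtype.ext
  rw [hform e, smul_zero, add_zero]

/-- Triviality of recolouring is inherited by the image of a dismantling retraction. -/
theorem trivial_step {κ : Type} {S S' : Set (Vec κ)} (h : Step S S') (hS : RecolTrivial S) :
    RecolTrivial S' := by
  obtain ⟨r, ⟨hr1, hr2, hr3⟩, rfl⟩ := h
  obtain ⟨ψ, d, -, -, hr⟩ := adj_form hr3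
  intro ι _ T
  -- push forward by `r`
  let ρ : {τ : T → S // IsHom τ} →
      {τ : T → (range (fun x => (r x : Vec κ)) : Set (Vec κ)) // IsHom τ} :=
    fun τ => ⟨fun e => ⟨r (τ.1 e), ⟨τ.1 e, rfl⟩⟩, by
      intro Z hZ
      show ∑ e ∈ Z, (r (τ.1 e) : Vec κ) = 0
      simp only [hr]
      rw [Finset.sum_add_distrib, ← Finset.sum_smul, ← map_sum, τ.2 Z hZ]
      simp⟩
  have hρadj : ∀ τ τ', (Col T S).Adj τ τ' → (Col T (range (fun x => (r x : Vec κ)))).Reachable
      (ρ τ) (ρ τ') := by
    intro τ τ' hadj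
    by_cases heq : ρ τ = ρ τ'
    · rw [heq]
    · apply SimpleGraph.Adj.reachable
      obtain ⟨hne, C, c, hC, h⟩ := hadj
      refine ⟨fun h' => heq (Subtype.ext h'), C, c + ψ c • d, hC, fun e => ⟨fun he => ?_,
        fun he => ?_⟩⟩
      · show (r (τ'.1 e) : Vec κ) = r (τ.1 e) + (c + ψ c • d)
        rw [hr, hr, (h e).1 he, map_add, add_smul]
        abel
      · apply Subtype.ext
        show (r (τ'.1 e) : Vec κ) = r (τ.1 e)
        rw [(h e).2 he]
  have hρ : ∀ τ τ', (Col T S).Reachable τ τ' →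
      (Col T (range (fun x => (r x : Vec κ)))).Reachable (ρ τ) (ρ τ') := by
    rintro τ τ' ⟨w⟩
    induction w with
    | nil => exact SimpleGraph.Reachable.refl _
    | cons h _ ih => exact (hρadj _ _ h).trans ih
  intro τ τ'
  have hsub : ∀ x : (range (fun x => (r x : Vec κ)) : Set (Vec κ)), (x : Vec κ) ∈ S := by
    rintro ⟨_, ⟨y, rfl⟩⟩; exact (r y).2
  have hfix : ∀ x : (range (fun x => (r x : Vec κ)) : Set (Vec κ)),
      (r ⟨x, hsub x⟩ : Vec κ) = x := by
    rintro ⟨_, ⟨y, rfl⟩⟩
    exact congrArg Subtype.val (hr2 y)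
  let inc : {τ : T → (range (fun x => (r x : Vec κ)) : Set (Vec κ)) // IsHom τ} →
      {τ : T → S // IsHom τ} := fun τ => ⟨fun e => ⟨τ.1 e, hsub _⟩, fun Z hZ => τ.2 Z hZ⟩
  have hinc : ∀ τ, ρ (inc τ) = τ := by
    intro τ
    apply Subtype.ext
    funext e
    apply Subtype.ext
    exact hfix (τ.1 e)
  have := hρ _ _ (hS ι T (inc τ) (inc τ'))
  rwa [hinc, hinc] at this

/-- If `S + c = S` with `c ≠ 0` and `S` nonempty, there is a dismantling retraction. -/
theorem retraction_of_translate {κ : Type} [Finite κ] {S : Set (Vec κ)} (hne : S.Nonempty)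
    {c : Vec κ} (hc : c ≠ 0) (hS : ∀ x ∈ S, x + c ∈ S) :
    ∃ r : S → S, IsDismantlingRetraction r := by
  classical
  -- a functional with value `1` on `c` whose support on `S` is smallest
  have hex : ∃ n, ∃ φ : Vec κ →ₗ[ZMod 2] ZMod 2, φ c = 1 ∧ (coset S φ).ncard = n := by
    obtain ⟨i, hi⟩ := Function.ne_iff.1 hc
    refine ⟨_, LinearMap.proj i, ?_, rfl⟩
    rcases z2 (c i) with h | h
    · exact absurd h hi
    · exact h
  obtain ⟨φ, hφ, hn⟩ := Nat.find_spec hex
  have hmin : ∀ θ : Vec κ →ₗ[ZMod 2] ZMod 2, θ c = 1 → (coset S φ).ncard ≤ (coset S θ).ncard := by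
    intro θ hθ
    rw [hn]
    exact Nat.find_min' hex ⟨θ, hθ, rfl⟩
  have hC : IsCocircuit (coset S φ) := by
    refine ⟨⟨φ, rfl⟩, ?_, ?_⟩
    · obtain ⟨x, hx⟩ := hne
      rcases z2 (φ x) with h | h
      · refine ⟨⟨x + c, hS x hx⟩, ?_⟩
        show φ (x + c) = 1
        rw [map_add, h, hφ, zero_add]
      · exact ⟨⟨x, hx⟩, h⟩
    · intro θ hθne hθs
      by_contra hneq
      have hss : coset S θ ⊂ coset S φ := ⟨hθs, fun h => hneq (subset_antisymm hθs h)⟩
      rcases z2 (θ c) with h | h
      · have h1 : (φ + θ) c = 1 := by rw [LinearMap.add_apply, hφ, h, add_zero]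
        have h2 := hmin (φ + θ) h1
        have h3 : coset S (φ + θ) ⊂ coset S φ := by
          refine ⟨?_, ?_⟩
          · intro e he
            have he' : φ e + θ e = 1 := he
            show φ e = 1
            rcases z2 (φ e) with h4 | h4
            · rw [h4, zero_add] at he'
              exact absurd (hθs he') (by
                intro h5
                have h6 : φ e = 1 := h5
                rw [h4] at h6; exact absurd h6 (by decide))
            · exact h4
          · intro h4
            obtain ⟨e, he⟩ := hθne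
            have h5 : φ e + θ e = 1 := h4 (hθs he)
            have h6 : φ e = 1 := hθs he
            have h7 : θ e = 1 := he
            rw [h6, h7] at h5
            exact absurd h5 (by decide)
        have h4 := ncard_lt_ncard h3 (toFinite _)
        omega
      · have h2 := hmin θ h
        have h4 := ncard_lt_ncard hss (toFinite _)
        omega
  refine retraction_of hC (c := c) ?_ hφ
  intro x hx
  rcases z2 (φ x) with h | h
  · rw [h, zero_smul, add_zero]; exact hx
  · rw [h, one_smul]; exact hS x hx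

/-- The product of `S` with itself. -/
def sq {κ : Type} (S : Set (Vec κ)) : Set (Vec (κ ⊕ κ)) :=
  {e | (fun i => e (Sum.inl i)) ∈ S ∧ (fun i => e (Sum.inr i)) ∈ S}

/-- First projection. -/
def pr1 {κ : Type} (S : Set (Vec κ)) (e : sq S) : S := ⟨fun i => (e : Vec (κ ⊕ κ)) (Sum.inl i), e.2.1⟩

/-- Second projection. -/
def pr2 {κ : Type} (S : Set (Vec κ)) (e : sq S) : S := ⟨fun i => (e : Vec (κ ⊕ κ)) (Sum.inr i), e.2.2⟩

theorem pr1_hom {κ : Type} (S : Set (Vec κ)) : IsHom (pr1 S) := by
  intro Z hZ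
  funext i
  have := congrFun hZ.2.1 (Sum.inl i)
  rw [Finset.sum_apply] at this ⊢
  exact this

theorem pr2_hom {κ : Type} (S : Set (Vec κ)) : IsHom (pr2 S) := by
  intro Z hZ
  funext i
  have := congrFun hZ.2.1 (Sum.inr i)
  rw [Finset.sum_apply] at this ⊢
  exact this

/-- Pairing of two vectors as a linear map. -/
def pairL (κ : Type) : (Vec κ × Vec κ) →ₗ[ZMod 2] Vec (κ ⊕ κ) where
  toFun p := Sum.elim p.1 p.2
  map_add' p q := by
    funext i; rcases i with i | i <;> rfl
  map_smul' a p := by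
    funext i; rcases i with i | i <;> rfl

theorem stiff_step {κ : Type} [Finite κ] {S : Set (Vec κ)} (hne : S.Nonempty)
    (hstiff : ¬ ∃ r : S → S, IsDismantlingRetraction r) {τ τ' : sq S → S}
    (hadj : ColAdj τ τ')
    (h : ∃ g : Vec κ ≃ₗ[ZMod 2] Vec κ, (∀ x, g x ∈ S ↔ x ∈ S) ∧
      ∀ e : sq S, (τ e : Vec κ) = g (pr1 S e)) :
    ∃ g : Vec κ ≃ₗ[ZMod 2] Vec κ, (∀ x, g x ∈ S ↔ x ∈ S) ∧
      ∀ e : sq S, (τ' e : Vec κ) = g (pr1 S e) := by
  obtain ⟨g, hg, hτ⟩ := h
  obtain ⟨φ, c, hc, hC, hform⟩ := adj_form hadj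
  set c' := g.symm c with hc'
  have hc'0 : c' ≠ 0 := by
    intro h
    apply hc
    rw [hc'] at h
    exact (LinearEquiv.map_eq_zero_iff _).1 h
  -- elements of the product
  have hmk : ∀ x ∈ S, ∀ y ∈ S, pairL κ (x, y) ∈ sq S := fun x hx y hy => ⟨hx, hy⟩
  have hval : ∀ x (hx : x ∈ S) y (hy : y ∈ S), x + φ (pairL κ (x, y)) • c' ∈ S := by
    intro x hx y hy
    have h1 := hform ⟨pairL κ (x, y), hmk x hx y hy⟩
    rw [hτ] at h1
    have h2 : ((pr1 S ⟨pairL κ (x, y), hmk x hx y hy⟩ : S) : Vec κ) = x := rfl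
    rw [h2] at h1
    rw [← hg, map_add, map_smul, hc', LinearEquiv.apply_symm_apply, ← h1]
    exact Subtype.coe_prop _
  set φ2 : Vec κ →ₗ[ZMod 2] ZMod 2 := φ ∘ₗ pairL κ ∘ₗ LinearMap.inr _ _ _ with hφ2
  have hsplit : ∀ x y, φ (pairL κ (x, y)) = φ (pairL κ (x, 0)) + φ2 y := by
    intro x y
    have h1 : ((x, y) : Vec κ × Vec κ) = (x, 0) + (0, y) := by simp
    rw [h1, map_add, map_add]
    rfl
  by_cases hconst : ∀ y ∈ S, ∀ y' ∈ S, φ2 y = φ2 y'
  · -- the new map is again an automorphism after the first projection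
    set φ' : Vec κ →ₗ[ZMod 2] ZMod 2 := φ ∘ₗ pairL κ ∘ₗ (LinearMap.id.prod LinearMap.id) with hφ'
    have hdiag : ∀ x ∈ S, ∀ y ∈ S, φ (pairL κ (x, y)) = φ' x := by
      intro x hx y hy
      have h1 : φ' x = φ (pairL κ (x, x)) := rfl
      rw [h1, hsplit x y, hsplit x x, hconst y hy x hx]
    have hpair : ∀ e : sq S, (e : Vec (κ ⊕ κ)) = pairL κ (pr1 S e, pr2 S e) := by
      intro e
      funext i; rcases i with i | i <;> rfl
    have hval' : ∀ e : sq S, φ (e : Vec (κ ⊕ κ)) = φ' (pr1 S e) := by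
      intro e
      rw [hpair e]
      exact hdiag _ (pr1 S e).2 _ (pr2 S e).2
    have hC' : IsCocircuit (coset S φ') := by
      refine ⟨⟨φ', rfl⟩, ?_, ?_⟩
      · obtain ⟨e, he⟩ := hC.2.1
        refine ⟨pr1 S e, ?_⟩
        show φ' (pr1 S e) = 1
        rw [← hval']; exact he
      · intro θ hθne hθs
        -- pull back to the product
        have hsub : coset (sq S) (θ ∘ₗ (LinearMap.funLeft (ZMod 2) (ZMod 2) Sum.inl)) ⊆
            coset (sq S) φ := by
          intro e he
          have h1 : θ (pr1 S e) = 1 := he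
          have h2 : φ' (pr1 S e) = 1 := hθs (show pr1 S e ∈ coset S θ from h1)
          show φ e = 1
          rw [hval']; exact h2
        have hne' : (coset (sq S) (θ ∘ₗ (LinearMap.funLeft (ZMod 2) (ZMod 2) Sum.inl))).Nonempty := by
          obtain ⟨x, hx⟩ := hθne
          exact ⟨⟨pairL κ (x, x), hmk x x.2 x x.2⟩, hx⟩
        have heq := hC.2.2 _ hne' hsub
        refine subset_antisymm hθs ?_
        intro x hx
        have hx' : φ' x = 1 := hx
        have h3 : (⟨pairL κ (x, x), hmk x x.2 x x.2⟩ : sq S) ∈ coset (sq S) φ := by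
          show φ (pairL κ (x, x)) = 1
          exact hx'
        rw [← heq] at h3
        exact h3
    have hφc : φ' c' = 0 := by
      rcases z2 (φ' c') with h | h
      · exact h
      · exfalso
        apply hstiff
        refine retraction_of hC' (c := c') ?_ h
        intro x hx
        rw [← hdiag x hx x hx]
        exact hval x hx x hx
    -- the transvection
    let ψ : Vec κ →ₗ[ZMod 2] Vec κ := LinearMap.id + φ'.smulRight c'
    have hψ : ∀ x, ψ x = x + φ' x • c' := fun x => rfl
    have hψψ : ∀ x, ψ (ψ x) = x := by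
      intro x
      rw [hψ, hψ, map_add, map_smul, hφc, smul_zero, add_zero, add_assoc, vec_add_self, add_zero]
    let Ψ : Vec κ ≃ₗ[ZMod 2] Vec κ := LinearEquiv.ofLinearMap ψ ψ
      (by ext1 x; exact hψψ _) (by ext1 x; exact hψψ _)
    have hΨ : ∀ x, Ψ x = x + φ' x • c' := fun x => rfl
    have hΨS : ∀ x, x ∈ S → Ψ x ∈ S := by
      intro x hx
      rw [hΨ, ← hdiag x hx x hx]
      exact hval x hx x hx
    refine ⟨Ψ.trans g, ?_, ?_⟩
    · intro x
      rw [LinearEquiv.trans_apply, hg]
      refine ⟨fun h => ?_, hΨS x⟩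
      have := hΨS _ h
      have h2 : Ψ (Ψ x) = x := hψψ x
      rwa [h2] at this
    · intro e
      rw [hform e, hτ, hval', LinearEquiv.trans_apply, hΨ, map_add, map_smul, hc',
        LinearEquiv.apply_symm_apply]
  · -- `S` is invariant under the translation by `c'`
    exfalso
    push Not at hconst
    obtain ⟨y, hy, y', hy', hyy⟩ := hconst
    apply hstiff
    refine retraction_of_translate hne hc'0 ?_
    intro x hx
    have h1 := hval x hx y hy
    have h2 := hval x hx y' hy'
    have h3 : φ (pairL κ (x, y)) ≠ φ (pairL κ (x, y')) := by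
      rw [hsplit x y, hsplit x y']
      intro h; exact hyy (add_left_cancel h)
    rcases z2 (φ (pairL κ (x, y))) with h4 | h4
    · rcases z2 (φ (pairL κ (x, y'))) with h5 | h5
      · exact absurd (h4.trans h5.symm) h3
      · rw [h5, one_smul] at h2; exact h2
    · rw [h4, one_smul] at h1; exact h1

theorem stiff_subsingleton {κ : Type} [Finite κ] {S : Set (Vec κ)} (hne : S.Nonempty)
    (hstiff : ¬ ∃ r : S → S, IsDismantlingRetraction r) (htriv : RecolTrivial S) :
    ∀ x ∈ S, ∀ y ∈ S, x = y := by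
  have hreach := htriv (κ ⊕ κ) (sq S) ⟨pr1 S, pr1_hom S⟩ ⟨pr2 S, pr2_hom S⟩
  have key : ∀ τ τ' : {τ : sq S → S // IsHom τ}, (Col (sq S) S).Reachable τ τ' →
      (∃ g : Vec κ ≃ₗ[ZMod 2] Vec κ, (∀ x, g x ∈ S ↔ x ∈ S) ∧
        ∀ e : sq S, (τ.1 e : Vec κ) = g (pr1 S e)) →
      (∃ g : Vec κ ≃ₗ[ZMod 2] Vec κ, (∀ x, g x ∈ S ↔ x ∈ S) ∧
        ∀ e : sq S, (τ'.1 e : Vec κ) = g (pr1 S e)) := by
    rintro τ τ' ⟨w⟩
    induction w with
    | nil => exact id
    | cons h _ ih => exact fun hh => ih (stiff_step hne hstiff h hh)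
  obtain ⟨g, hg, h⟩ := key _ _ hreach ⟨LinearEquiv.refl _ _, fun x => Iff.rfl, fun e => rfl⟩
  have h1 : ∀ x ∈ S, ∀ y ∈ S, y = g x := by
    intro x hx y hy
    exact h ⟨pairL κ (x, y), ⟨hx, hy⟩⟩
  intro x hx y hy
  rw [h1 x hx x hx]
  exact (h1 x hx y hy).symm

/-- **Affirmative answer to Q1.**  Let `N` be a nonempty binary simple matroid (loops allowed),
given by a set `S` of columns.  If `Col(M, N)` is connected for every binary matroid `M`, then `N`
dismantles to the loop or to the edge. -/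
theorem result : ∀ (κ : Type) [Finite κ] (S : Set (Vec κ)), S.Nonempty → RecolTrivial S →
    DismantlesToLoopOrEdge S := by
  intro κ _
  have key : ∀ (n : ℕ) (S : Set (Vec κ)), S.ncard = n → S.Nonempty → RecolTrivial S →
      DismantlesToLoopOrEdge S := by
    intro n
    induction n using Nat.strong_induction_on with
    | _ n ih =>
      intro S hn hne htriv
      by_cases hstiff : ∃ r : S → S, IsDismantlingRetraction r
      · obtain ⟨r, hr⟩ := hstiff
        have hstep : Step S (range (fun x => (r x : Vec κ))) := ⟨r, hr, rfl⟩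
        have hsub : range (fun x => (r x : Vec κ)) ⊂ S := by
          refine ⟨?_, ?_⟩
          · rintro _ ⟨x, rfl⟩; exact (r x).2
          · intro h
            apply hr.2.2.1
            funext x
            obtain ⟨y, hy⟩ := h x.2
            have hy' : r y = x := Subtype.ext hy
            rw [← hy', hr.2.1]
        have hlt := ncard_lt_ncard hsub (toFinite _)
        have hne' : (range (fun x => (r x : Vec κ))).Nonempty := by
          obtain ⟨x, hx⟩ := hne
          exact ⟨_, ⟨⟨x, hx⟩, rfl⟩⟩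
        obtain ⟨S', hS', hend⟩ := ih _ (hn ▸ hlt) _ rfl hne' (trivial_step hstep htriv)
        exact ⟨S', Relation.ReflTransGen.head hstep hS', hend⟩
      · have h1 := stiff_subsingleton hne hstiff htriv
        obtain ⟨x, hx⟩ := hne
        have h2 : S = {x} := by
          ext y
          exact ⟨fun hy => h1 y hy x hx, fun hy => by rw [mem_singleton_iff.1 hy]; exact hx⟩
        refine ⟨S, Relation.ReflTransGen.refl, ?_⟩
        by_cases hx0 : x = 0
        · left; rw [h2, hx0]
        · right; exact ⟨x, hx0, h2⟩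
  intro S hne htriv
  exact key _ S rfl hne htriv

end Pool.Agent.Results.MP_ea4033_co.TrivialDismantles
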